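import Mathlib
import Pool.Agent.Lib.MP_2af702_co.Tree

set_option autoImplicit false

namespace Pool.Agent.Results.MP_2af702_co.Incomparable

/-- A finite permutation: a size `n` and a permutation of `Fin n`
(the entry in position `i` has value `σ i`). -/
abbrev FinPerm : Type := Σ n : ℕ, Equiv.Perm (Fin n)

/-- `f` picks a subsequence of `τ` that is order-isomorphic to `σ`. -/
def IsCopy (σ τ : FinPerm) (f : Fin σ.1 → Fin τ.1) : Prop :=
  StrictMono f ∧ ∀ i j, σ.2 i < σ.2 j ↔ τ.2 (f i) < τ.2 (f j)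

/-- `σ` is contained in `τ`. -/
def ContainedIn (σ τ : FinPerm) : Prop := ∃ f, IsCopy σ τ f

/-- A permutation class is a set of permutations closed under containment. -/
def IsClass (C : Set FinPerm) : Prop := ∀ σ τ, ContainedIn σ τ → τ ∈ C → σ ∈ C

/-- For all `σ, π ∈ C` some `τ ∈ C` has, in every red-blue colouring of its entries
(`true` is red, `false` is blue), a red copy of `σ` or a blue copy of `π`. -/
def Unsplittable (C : Set FinPerm) : Prop :=
  ∀ σ ∈ C, ∀ π ∈ C, ∃ τ ∈ C, ∀ c : Fin τ.1 → Bool,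
    (∃ f, IsCopy σ τ f ∧ ∀ i, c (f i) = true) ∨ (∃ f, IsCopy π τ f ∧ ∀ i, c (f i) = false)

/-- The permutation 2413 (values written from 0). -/
def p2413 : FinPerm := ⟨4, ⟨![1, 3, 0, 2], ![2, 0, 3, 1], by decide, by decide⟩⟩

/-- The permutation 3142 (values written from 0). -/
def p3142 : FinPerm := ⟨4, ⟨![2, 0, 3, 1], ![1, 3, 0, 2], by decide, by decide⟩⟩

/-- The separable permutations `Av(2413, 3142)`. -/
def Sep : Set FinPerm := {τ | ¬ ContainedIn p2413 τ ∧ ¬ ContainedIn p3142 τ}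

open Pool.Agent.Lib.MP_2af702_co in
theorem result :
    ∃ C : Set FinPerm, IsClass C ∧ Unsplittable C ∧ ¬ Sep ⊆ C ∧ ¬ C ⊆ Sep := by
  let C : Set FinPerm := {σ | ∃ (n k : ℕ) (f : Fin σ.1 → Pt), (∀ i, InT n k (f i)) ∧
    (∀ i j, i < j ↔ pk (f i).1 (f i).2 < pk (f j).1 (f j).2) ∧
    (∀ i j, σ.2 i < σ.2 j ↔ vk (f j).1 (f j).2 < vk (f i).1 (f i).2)}
  refine ⟨C, ?_, ?_, ?_, ?_⟩
  · rintro σ τ ⟨g, hg1, hg2⟩ ⟨n, k, f, h1, h2, h3⟩
    exact ⟨n, k, fun i => f (g i), fun i => h1 _, fun i j => by rw [← h2, hg1.lt_iff_lt],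
      fun i j => by rw [← h3, hg2]⟩
  · rintro σ ⟨a, k, f, h1, h2, h3⟩ π ⟨b, l, f', h1', h2', h3'⟩
    obtain ⟨N, τ, F, hF1, hF2, hF3, hF4⟩ := exists_perm (a + b) (k + l)
    refine ⟨⟨N, τ⟩, ⟨a + b, k + l, F, hF1, hF3, hF4⟩, fun c => ?_⟩
    classical
    let c' : Pt → Bool := fun x => if h : ∃ i, F i = x then c h.choose else true
    have key : ∀ (ρ : FinPerm) (v : Bool) (a' k' : ℕ) (g : Fin ρ.1 → Pt), (∀ i, InT a' k' (g i)) →
        (∀ i j, i < j ↔ pk (g i).1 (g i).2 < pk (g j).1 (g j).2) →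
        (∀ i j, ρ.2 i < ρ.2 j ↔ vk (g j).1 (g j).2 < vk (g i).1 (g i).2) →
        Mono c' v a' k' (a + b) (k + l) →
        ∃ u, IsCopy ρ ⟨N, τ⟩ u ∧ ∀ i, c (u i) = v := by
      rintro ρ v a' k' g hg1 hg2 hg3 ⟨φ, hφ1, hφ2⟩
      have hex : ∀ i, ∃ j, F j = φ (g i) := fun i => hF2 _ (hφ1 _ (hg1 i)).1
      have hsp : ∀ i, F (hex i).choose = φ (g i) := fun i => (hex i).choose_spec
      refine ⟨fun i => (hex i).choose, ⟨fun i j hij => ?_, fun i j => ?_⟩, fun i => ?_⟩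
      · rw [hF3, hsp, hsp, ← (hφ2 _ _ (hg1 i) (hg1 j)).1, ← hg2]
        exact hij
      · rw [hF4, hsp, hsp, ← (hφ2 _ _ (hg1 j) (hg1 i)).2, ← hg3]
      · have := (hφ1 _ (hg1 i)).2
        simpa only [c', dif_pos (hex i)] using this
    rcases ramsey k l (a + b) a b rfl c' with h | h
    · exact Or.inl (key σ true a k f h1 h2 h3 h)
    · exact Or.inr (key π false b l f' h1' h2' h3' h)
  · intro h
    let p1342 : FinPerm := ⟨4, ⟨![0, 2, 3, 1], ![0, 3, 1, 2], by decide, by decide⟩⟩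
    have hsep : p1342 ∈ Sep := by
      constructor
      · rintro ⟨f, hf1, hf2⟩
        revert f
        decide +kernel
      · rintro ⟨f, hf1, hf2⟩
        revert f
        decide +kernel
    obtain ⟨n, k, f, -, h2, h3⟩ := h hsep
    exact no1342 _ _ _ _ _ _ _ _ ((h2 (0 : Fin 4) (1 : Fin 4)).1 (by decide))
      ((h2 (1 : Fin 4) (2 : Fin 4)).1 (by decide)) ((h2 (2 : Fin 4) (3 : Fin 4)).1 (by decide))
      ((h3 (1 : Fin 4) (2 : Fin 4)).1 (by decide)) ((h3 (3 : Fin 4) (1 : Fin 4)).1 (by decide))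
      ((h3 (0 : Fin 4) (3 : Fin 4)).1 (by decide))
  · intro h
    have hmem : p3142 ∈ C := by
      refine ⟨2, 2, ![([1], 0), ([2], 0), ([], 0), ([], 1)], ?_, ?_, ?_⟩
      · unfold InT
        decide +kernel
      · decide +kernel
      · decide +kernel
    exact (h hmem).2 ⟨id, strictMono_id, fun _ _ => Iff.rfl⟩

end Pool.Agent.Results.MP_2af702_co.Incomparable
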